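import Pool.Agent.H49.PCFDefs
import Pool.Agent.H49.PCF2

set_option autoImplicit false

namespace Pool.Agent.Results.MP_505b57_nt.QuadraticTwoAdic

open Polynomial Pool.Agent.H49.PCF

/-- Q2 fails for `d = 2`, `p = 2`: a PCF quadratic polynomial over the algebraic closure of `ℚ_2`
whose affine conjugacy class is Galois invariant (a `ℚ_2`-point of `P_2`) is conjugate to one of
three maps. -/
theorem result (f : (AlgebraicClosure ℚ_[2])[X]) (hf : f.natDegree = 2)
    (hrat : ∀ σ : AlgebraicClosure ℚ_[2] ≃ₐ[ℚ_[2]] AlgebraicClosure ℚ_[2],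
      AffConj f (f.map (σ : AlgebraicClosure ℚ_[2] →+* AlgebraicClosure ℚ_[2])))
    (hpcf : IsPCF f) :
    AffConj f (X ^ 2) ∨ AffConj f (X ^ 2 - 1) ∨ AffConj f (X ^ 2 - 2) :=
  main f hf hrat hpcf

end Pool.Agent.Results.MP_505b57_nt.QuadraticTwoAdic
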